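import Pool.Agent.Lib.MP_c03fb1_al.Proof

/-!
The commutative three-dimensional algebra `G3 S` (basis `e0, e1, e2`, nonzero products
`e0 e0 = e1 + e2`, `e0 e1 = e1 e0 = e0`, `e1 e2 = e2 e1 = e1`) over a commutative ring `S`.
Over a field it is central simple.
-/

namespace Pool.Agent.Lib.MP_c03fb1_al.CS

universe u

open FreeNonUnitalNonAssocAlgebra

/-- The three-dimensional algebra, in coordinates. -/
@[ext] structure G3 (S : Type u) where
  p : S
  q : S
  r : S

namespace G3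

variable {S : Type u}

/-- Coordinates. -/
def equivProd : G3 S ≃ S × S × S where
  toFun x := (x.p, x.q, x.r)
  invFun p := ⟨p.1, p.2.1, p.2.2⟩
  left_inv _ := rfl
  right_inv _ := rfl

variable [CommRing S]

instance : AddCommGroup (G3 S) := equivProd.addCommGroup

@[simp] theorem add_p (x y : G3 S) : (x + y).p = x.p + y.p := rfl
@[simp] theorem add_q (x y : G3 S) : (x + y).q = x.q + y.q := rfl
@[simp] theorem add_r (x y : G3 S) : (x + y).r = x.r + y.r := rfl
@[simp] theorem sub_p (x y : G3 S) : (x - y).p = x.p - y.p := rfl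
@[simp] theorem sub_q (x y : G3 S) : (x - y).q = x.q - y.q := rfl
@[simp] theorem sub_r (x y : G3 S) : (x - y).r = x.r - y.r := rfl
@[simp] theorem zero_p : (0 : G3 S).p = 0 := rfl
@[simp] theorem zero_q : (0 : G3 S).q = 0 := rfl
@[simp] theorem zero_r : (0 : G3 S).r = 0 := rfl

instance : Mul (G3 S) :=
  ⟨fun x y => ⟨x.p * y.q + x.q * y.p, x.p * y.p + x.q * y.r + x.r * y.q, x.p * y.p⟩⟩

@[simp] theorem mul_p (x y : G3 S) : (x * y).p = x.p * y.q + x.q * y.p := rfl
@[simp] theorem mul_q (x y : G3 S) : (x * y).q = x.p * y.p + x.q * y.r + x.r * y.q := rfl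
@[simp] theorem mul_r (x y : G3 S) : (x * y).r = x.p * y.p := rfl

instance : NonUnitalNonAssocRing (G3 S) where
  left_distrib x y z := by ext <;> simp <;> ring
  right_distrib x y z := by ext <;> simp <;> ring
  zero_mul x := by ext <;> simp
  mul_zero x := by ext <;> simp

section field

variable {K : Type u} [Field K] [Algebra K S]

instance : Module K (G3 S) := equivProd.module K

@[simp] theorem smul_p (k : K) (x : G3 S) : (k • x).p = k • x.p := rfl
@[simp] theorem smul_q (k : K) (x : G3 S) : (k • x).q = k • x.q := rfl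
@[simp] theorem smul_r (k : K) (x : G3 S) : (k • x).r = k • x.r := rfl

instance : IsScalarTower K (G3 S) (G3 S) where
  smul_assoc k x y := by ext <;> simp [smul_add]

instance : SMulCommClass K (G3 S) (G3 S) where
  smul_comm k x y := by ext <;> simp [smul_add]

/-- An algebra map of coefficient rings induces an algebra map. -/
def mapHom {T : Type u} [CommRing T] [Algebra K T] (φ : S →ₐ[K] T) : G3 S →ₙₐ[K] G3 T where
  toFun x := ⟨φ x.p, φ x.q, φ x.r⟩
  map_smul' k x := by ext <;> simp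
  map_zero' := by ext <;> simp
  map_add' x y := by ext <;> simp
  map_mul' x y := by ext <;> simp

end field

theorem finrank_eq (K : Type u) [Field K] : Module.finrank K (G3 K) = 3 := by
  have e : G3 K ≃ₗ[K] K × K × K := equivProd.linearEquiv K
  rw [e.finrank_eq]
  simp

theorem mul_comm' (x y : G3 S) : x * y = y * x := by
  ext <;> simp <;> ring

variable {K : Type u} [Field K]

theorem decomp (y : G3 K) : y = (⟨0, 1, 0⟩ : G3 K) * ⟨y.p, 0, y.q - y.r⟩ +
    (⟨0, 1, 0⟩ : G3 K) * ⟨1, 0, 0⟩ * ⟨y.r, 0, 0⟩ := by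
  ext <;> simp

theorem top_of_q (I : TwoSidedIdeal (G3 K)) (x : G3 K) (hx : x ∈ I) (hq : x.q ≠ 0) : I = ⊤ := by
  have h1 : (⟨0, 1, 0⟩ : G3 K) ∈ I := by
    have := I.mul_mem_right x ⟨0, 0, x.q⁻¹⟩ hx
    have e : x * ⟨0, 0, x.q⁻¹⟩ = (⟨0, 1, 0⟩ : G3 K) := by ext <;> simp [hq]
    rwa [e] at this
  refine eq_top_iff.2 fun y _ => ?_
  rw [decomp y]
  exact I.add_mem (I.mul_mem_right _ _ h1) (I.mul_mem_right _ _ (I.mul_mem_right _ _ h1))

theorem isSimpleRing (K : Type u) [Field K] : IsSimpleRing (G3 K) := by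
  have hne : (⊥ : TwoSidedIdeal (G3 K)) ≠ ⊤ := by
    intro h
    have h1 : (⟨0, 1, 0⟩ : G3 K) ∈ (⊥ : TwoSidedIdeal (G3 K)) := h ▸ TwoSidedIdeal.mem_top _
    have h2 := congrArg G3.q ((TwoSidedIdeal.mem_bot _).1 h1)
    simp at h2
  have : Nontrivial (TwoSidedIdeal (G3 K)) := ⟨⟨_, _, hne⟩⟩
  refine ⟨⟨fun I => ?_⟩⟩
  by_cases h : ∀ x ∈ I, x = 0
  · left
    exact eq_bot_iff.2 fun x hx => (TwoSidedIdeal.mem_bot _).2 (h x hx)
  · right
    push Not at h
    obtain ⟨x, hx, h0⟩ := h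
    by_cases hq : x.q = 0
    · by_cases hr : x.r = 0
      · refine top_of_q I _ (I.mul_mem_right x ⟨1, 0, 0⟩ hx) fun hp => h0 ?_
        have hp' : x.p = 0 := by simpa using hp
        ext <;> simp [hp', hq, hr]
      · exact top_of_q I _ (I.mul_mem_right x ⟨0, 1, 0⟩ hx) (by simpa using hr)
    · exact top_of_q I x hx hq

theorem central (T : CentroidHom (G3 K)) : ∃ c : K, ∀ x, T x = c • x := by
  refine ⟨(T ⟨0, 1, 0⟩).q, fun y => ?_⟩
  have hr : ∀ x y : G3 K, T (x * y) = T x * y := fun x y => T.map_mul_right' x y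
  have h1 : T ⟨0, 1, 0⟩ = ⟨0, (T ⟨0, 1, 0⟩).q, 0⟩ := by
    have e : (⟨0, 1, 0⟩ : G3 K) = (⟨0, 1, 0⟩ : G3 K) * ⟨0, 0, 1⟩ := by ext <;> simp
    have h' := hr ⟨0, 1, 0⟩ ⟨0, 0, 1⟩
    rw [← e] at h'
    ext
    · simpa using congrArg G3.p h'
    · rfl
    · simpa using congrArg G3.r h'
  have h4 : T y = T ⟨0, 1, 0⟩ * ⟨y.p, 0, y.q - y.r⟩ + T ⟨0, 1, 0⟩ * ⟨1, 0, 0⟩ * ⟨y.r, 0, 0⟩ := by
    rw [← hr, ← hr, ← hr, ← map_add, ← decomp]
  rw [h4, h1]
  ext <;> simp <;> ring

end G3

/-- Over an infinite field, identities of `G3 K` hold in `G3 S` for each commutative algebra `S`. -/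
theorem identity_extG {K : Type u} [Field K] [Infinite K] (f : FreeNonUnitalNonAssocAlgebra K ℕ)
    (hf : ∀ r : ℕ → G3 K, lift K r f = 0) (S : Type u) [CommRing S] [Algebra K S]
    (r : ℕ → G3 S) : lift K r f = 0 := by
  let g : ℕ → G3 (MvPolynomial (ℕ × Fin 3) K) := fun i =>
    ⟨MvPolynomial.X (i, 0), MvPolynomial.X (i, 1), MvPolynomial.X (i, 2)⟩
  have hg : lift K g f = 0 := by
    have key : ∀ x : ℕ × Fin 3 → K,
        G3.mapHom (MvPolynomial.aeval x : MvPolynomial (ℕ × Fin 3) K →ₐ[K] K) (lift K g f) = 0 := by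
      intro x
      rw [hom_lift]
      exact hf _
    apply G3.ext
    · apply MvPolynomial.funext
      intro x
      have := congrArg G3.p (key x)
      simpa [G3.mapHom, MvPolynomial.aeval_eq_eval] using this
    · apply MvPolynomial.funext
      intro x
      have := congrArg G3.q (key x)
      simpa [G3.mapHom, MvPolynomial.aeval_eq_eval] using this
    · apply MvPolynomial.funext
      intro x
      have := congrArg G3.r (key x)
      simpa [G3.mapHom, MvPolynomial.aeval_eq_eval] using this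
  let x : ℕ × Fin 3 → S := fun q => ![(r q.1).p, (r q.1).q, (r q.1).r] q.2
  have h2 := hom_lift
    (G3.mapHom (MvPolynomial.aeval x : MvPolynomial (ℕ × Fin 3) K →ₐ[K] S)) g f
  rw [hg, map_zero] at h2
  have h3 : (G3.mapHom (MvPolynomial.aeval x : MvPolynomial (ℕ × Fin 3) K →ₐ[K] S)) ∘ g = r := by
    funext i
    apply G3.ext <;> simp [G3.mapHom, g, x]
  rw [h3] at h2
  exact h2.symm

end Pool.Agent.Lib.MP_c03fb1_al.CS
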