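import Pool.Agent.Results.MP_c03fb1_al.CommSimple
import Pool.Agent.Lib.MP_c03fb1_al.OldCentralSimple
import Pool.Agent.Lib.MP_c03fb1_al.OldCommutative

/-! The hand-in `CommSimple` implies the statements of `CentralSimple` and `Commutative`. -/

namespace Pool.Agent.Lib.MP_c03fb1_al.CS

universe u

open Pool.Agent.Results.MP_c03fb1_al

theorem centralSimple_of (K : Type u) [Field K] [Infinite K] :
    ∃ (R : Type u) (_ : NonUnitalNonAssocRing R) (_ : Module K R) (_ : IsScalarTower K R R)
      (_ : SMulCommClass K R R), Module.finrank K R = 3 ∧ IsSimpleRing R ∧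
        (∀ T : CentroidHom R, ∃ c : K, ∀ x : R, T x = c • x) ∧
        ¬ OldCentralSimple.FinitelyBased K R := by
  obtain ⟨R, i1, i2, i3, i4, h1, -, h2, h3, h4⟩ := CommSimple.result K
  exact ⟨R, i1, i2, i3, i4, h1, h2, h3, h4⟩

theorem commutative_of (K : Type u) [Field K] [Infinite K] :
    ∃ (R : Type u) (_ : NonUnitalNonAssocRing R) (_ : Module K R) (_ : IsScalarTower K R R)
      (_ : SMulCommClass K R R), Module.finrank K R = 3 ∧ (∀ x y : R, x * y = y * x) ∧
        ¬ OldCommutative.FinitelyBased K R := by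
  obtain ⟨R, i1, i2, i3, i4, h1, h2, -, -, h4⟩ := CommSimple.result K
  exact ⟨R, i1, i2, i3, i4, h1, h2, h4⟩

example : type_of% @centralSimple_of.{u} = type_of% @OldCentralSimple.result.{u} := rfl

example : type_of% @commutative_of.{u} = type_of% @OldCommutative.result.{u} := rfl

end Pool.Agent.Lib.MP_c03fb1_al.CS
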