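import Pool.Agent.Lib.MP_c03fb1_al.S.CWit
import Pool.Agent.Lib.MP_c03fb1_al.CS.Alg

/-!
The witness algebras `U K n` (file `S/CWit`) satisfy the identities of `G3 K` of degree at most
`n + 2` and fail one identity of `G3 K` of degree `n + 3`.
-/

namespace Pool.Agent.Lib.MP_c03fb1_al.CS

universe u

open Polynomial FreeNonUnitalNonAssocAlgebra TrivSqZeroExt Pool.Agent.Lib.MP_c03fb1_al.S

variable {K : Type u} [Field K] {n : ℕ}

/-- The substitution used for the coordinates `v, e, p`. -/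
noncomputable def ps1 (x : U K n) : G3 K[X][X] :=
  ⟨X * C (C x.e), X ^ 2 * C x.p, C (C x.v * X)⟩

theorem ginv1 (r : ℕ → U K n) (m : FreeMagma ℕ) :
    let x := FreeMagma.lift r m
    let y := FreeMagma.lift (ps1 ∘ r) m
    y.r.coeff 0 = C x.v * X ∧ ∃ P Q, y.p = X * P ∧ P.coeff 0 = C x.e ∧ y.q = X ^ 2 * Q ∧
      Q.coeff 0 = x.p := by
  induction m using FreeMagma.recOnMul with
  | ih1 i => exact ⟨by simp [ps1], C (C (r i).e), C (r i).p, rfl, by simp, rfl, by simp⟩
  | ih2 m₁ m₂ h₁ h₂ =>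
    obtain ⟨b1, P1, Q1, a1, e1, c1, d1⟩ := h₁
    obtain ⟨b2, P2, Q2, a2, e2, c2, d2⟩ := h₂
    simp only [map_mul] at *
    refine ⟨by simp [a1, a2], X ^ 2 * (P1 * Q2 + Q1 * P2), P1 * P2 +
      Q1 * (FreeMagma.lift (ps1 ∘ r) m₂).r + (FreeMagma.lift (ps1 ∘ r) m₁).r * Q2, ?_, by simp,
      ?_, ?_⟩
    · rw [G3.mul_p, a1, a2, c1, c2]
      ring
    · rw [G3.mul_q, a1, a2, c1, c2]
      ring
    · simp only [coeff_add, mul_coeff_zero, b1, b2, d1, d2, e1, e2, U.mul_p, map_mul]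
      ring

/-- The substitution used for the coordinates `s, z`. -/
noncomputable def ps2 (x : U K n) : G3 (DualNumber (DualNumber K[X])) :=
  ⟨inr (inl (C x.s) + inr (C x.z * X ^ n)), inl (inr x.p), inl (inl (C x.v * X))⟩

theorem ginv2 (r : ℕ → U K n) (m : FreeMagma ℕ) :
    let x := FreeMagma.lift r m
    let y := FreeMagma.lift (ps2 ∘ r) m
    y.r = inl (inl (C x.v * X)) ∧ y.p.fst = 0 ∧ y.q.snd = 0 ∧ y.q.fst.fst = 0 ∧
      y.p.snd.fst = C x.s ∧
      (∀ k, m.length ≤ k + 1 → y.q.fst.snd.coeff k = x.p.coeff k) ∧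
      (m.length ≤ n + 2 → y.p.snd.snd.coeff n = x.z) := by
  induction m using FreeMagma.recOnMul with
  | ih1 i => simp [ps2]
  | ih2 m₁ m₂ h₁ h₂ =>
    obtain ⟨a1, f1, b1, c1, d1, p1, z1⟩ := h₁
    obtain ⟨a2, f2, b2, c2, d2, p2, z2⟩ := h₂
    have l1 := m₁.length_pos
    have l2 := m₂.length_pos
    simp only [map_mul, FreeMagma.length] at *
    refine ⟨?_, by simp [f1, f2], by simp [a1, a2, b1, b2, f1, f2],
      by simp [a1, a2, c1, c2, f1, f2], by simp [b1, b2, c1, c2, f1, f2], ?_, ?_⟩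
    · apply TrivSqZeroExt.ext <;> simp [f1, f2]
    · intro k hk
      obtain ⟨j, rfl⟩ : ∃ j, k = j + 1 := ⟨k - 1, by omega⟩
      have e1 := p1 j (by omega)
      have e2 := p2 j (by omega)
      have e3 : ∀ (c : K) (P : K[X]), (C c * X * P).coeff (j + 1) = c * P.coeff j := by
        intro c P
        rw [mul_assoc, coeff_C_mul, coeff_X_mul]
      have e4 : ((FreeMagma.lift (ps2 ∘ r) m₁ * FreeMagma.lift (ps2 ∘ r) m₂).q).fst.snd =
          C (FreeMagma.lift r m₂).v * X * (FreeMagma.lift (ps2 ∘ r) m₁).q.fst.snd +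
            C (FreeMagma.lift r m₁).v * X * (FreeMagma.lift (ps2 ∘ r) m₂).q.fst.snd := by
        simp only [G3.mul_q, a1, a2, f1, f2, fst_add, fst_mul, fst_inl, snd_add, snd_mul, snd_inl,
          smul_eq_mul, op_smul_eq_mul, mul_zero, zero_mul, snd_zero]
        ring
      rw [e4, U.mul_p, coeff_add, coeff_add, coeff_add, coeff_C_succ, e3, e3, e3, e3, e1, e2,
        zero_add]
    · intro hk
      have e1 := p1 n (by omega)
      have e2 := p2 n (by omega)
      have e4 : ((FreeMagma.lift (ps2 ∘ r) m₁ * FreeMagma.lift (ps2 ∘ r) m₂).p).snd.snd =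
          (FreeMagma.lift (ps2 ∘ r) m₁).q.fst.snd * C (FreeMagma.lift r m₂).s +
            C (FreeMagma.lift r m₁).s * (FreeMagma.lift (ps2 ∘ r) m₂).q.fst.snd := by
        simp only [G3.mul_p, f1, f2, b1, b2, c1, c2, d1, d2, snd_add, snd_mul,
          smul_eq_mul, op_smul_eq_mul, mul_zero, zero_mul, snd_zero]
        ring
      rw [e4, U.mul_z, coeff_add, coeff_mul_C, coeff_C_mul, e1, e2]

/-- Identities of `G3 K` of degree at most `n + 2` hold in `U K n`. -/
theorem witness_identityG [Infinite K] (f : FreeNonUnitalNonAssocAlgebra K ℕ)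
    (hf : ∀ r : ℕ → G3 K, lift K r f = 0) (hdeg : ∀ m ∈ f.coeff.support, m.length ≤ n + 2)
    (r : ℕ → U K n) : lift K r f = 0 := by
  let a₁ : U K n →ₗ[K] K[X] × K[X] × K[X] :=
    { toFun := fun x => (C x.v * X, C x.e, x.p)
      map_add' := fun x y => by ext <;> simp [add_mul]
      map_smul' := fun k x => by
        refine Prod.ext ?_ (Prod.ext ?_ ?_) <;> simp [smul_eq_C_mul, mul_assoc] }
  let b₁ : G3 K[X][X] →ₗ[K] K[X] × K[X] × K[X] :=
    { toFun := fun y => (y.r.coeff 0, y.p.coeff 1, y.q.coeff 2)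
      map_add' := fun x y => by simp
      map_smul' := fun k x => by simp }
  let a₂ : U K n →ₗ[K] K × K :=
    { toFun := fun x => (x.s, x.z)
      map_add' := fun x y => rfl
      map_smul' := fun k x => rfl }
  let b₂ : G3 (DualNumber (DualNumber K[X])) →ₗ[K] K × K :=
    { toFun := fun y => (y.p.snd.fst.coeff 0, y.p.snd.snd.coeff n)
      map_add' := fun x y => by simp
      map_smul' := fun k x => by simp }
  have h1 := transfer a₁ b₁ r (ps1 ∘ r) f (identity_extG f hf _ _) fun m _ => by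
    obtain ⟨h1, P, Q, h2, h2', h3, h4⟩ := ginv1 r m
    have h5 : (X ^ 2 * Q).coeff 2 = Q.coeff 0 := coeff_X_pow_mul Q 2 0
    simp [a₁, b₁, h1, h2, h2', h3, h4, h5]
  have h2 := transfer a₂ b₂ r (ps2 ∘ r) f (identity_extG f hf _ _) fun m hm => by
    obtain ⟨-, -, -, -, h4, -, h6⟩ := ginv2 r m
    simp [a₂, b₂, h4, h6 (hdeg m hm)]
  simp only [a₁, a₂, LinearMap.coe_mk, AddHom.coe_mk, Prod.mk_eq_zero] at h1 h2
  apply U.ext
  · exact h2.1
  · simpa using h1.1
  · simpa using h1.2.1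
  · exact h2.2
  · simpa using h1.2.2

section generic

variable {A B : Type u} [NonUnitalNonAssocRing A] [NonUnitalNonAssocRing B]

/-- Right multiplication by `v`, `k` times. -/
def it (v : A) : ℕ → A → A
  | 0, x => x
  | k + 1, x => it v k x * v

/-- The skew bilinear map `F_{a,v}`. -/
def FF (a v x y : A) : A :=
  (y * a) * (x * v) - (x * a) * (y * v) + ((x * a) * y - (y * a) * x) * v -
    ((x * v) * y - (y * v) * x) * a

/-- The skew bilinear map `(x, y) ↦ (x R_v ^ k) y - x (y R_v ^ k)`. -/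
def BB (v : A) (k : ℕ) (x y : A) : A := it v k x * y - x * it v k y

/-- The cyclic sum. -/
def GG (k : ℕ) (a v b : A) : A :=
  BB v k (FF a v a v) b + BB v k (FF a v v b) a + BB v k (FF a v b a) v

theorem map_it {F : Type*} [FunLike F A B] [MulHomClass F A B] (φ : F) (v : A) (k : ℕ) (x : A) :
    φ (it v k x) = it (φ v) k (φ x) := by
  induction k with
  | zero => rfl
  | succ k ih => rw [it, it, map_mul, ih]

theorem map_GG {F : Type*} [FunLike F A B] [NonUnitalRingHomClass F A B] (φ : F) (k : ℕ)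
    (a v b : A) : φ (GG k a v b) = GG k (φ a) (φ v) (φ b) := by
  simp only [GG, BB, FF, map_add, map_sub, map_mul, map_it]

end generic

theorem it_lin (v : G3 K) (k : ℕ) : ∃ w0 w1 w2 : G3 K, ∀ x : G3 K, it v k x =
    ⟨x.p * w0.p + x.q * w1.p + x.r * w2.p, x.p * w0.q + x.q * w1.q + x.r * w2.q,
      x.p * w0.r + x.q * w1.r + x.r * w2.r⟩ := by
  induction k with
  | zero => exact ⟨⟨1, 0, 0⟩, ⟨0, 1, 0⟩, ⟨0, 0, 1⟩, fun x => by ext <;> simp [it]⟩
  | succ k ih =>
    obtain ⟨w0, w1, w2, h⟩ := ih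
    refine ⟨w0 * v, w1 * v, w2 * v, fun x => ?_⟩
    rw [it, h]
    ext <;> simp <;> ring

theorem GG_G3 (k : ℕ) (a v b : G3 K) : GG k a v b = 0 := by
  obtain ⟨w0, w1, w2, h⟩ := it_lin v k
  have hpq : (FF a v a v).p * b.q + (FF a v v b).p * a.q + (FF a v b a).p * v.q =
      (FF a v a v).q * b.p + (FF a v v b).q * a.p + (FF a v b a).q * v.p := by
    simp only [FF, G3.add_p, G3.add_q, G3.sub_p, G3.sub_q, G3.sub_r, G3.mul_p, G3.mul_q,
      G3.mul_r]
    ring
  have hpr : (FF a v a v).p * b.r + (FF a v v b).p * a.r + (FF a v b a).p * v.r =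
      (FF a v a v).r * b.p + (FF a v v b).r * a.p + (FF a v b a).r * v.p := by
    simp only [FF, G3.add_p, G3.add_r, G3.sub_p, G3.sub_q, G3.sub_r, G3.mul_p, G3.mul_q,
      G3.mul_r]
    ring
  have hqr : (FF a v a v).q * b.r + (FF a v v b).q * a.r + (FF a v b a).q * v.r =
      (FF a v a v).r * b.q + (FF a v v b).r * a.q + (FF a v b a).r * v.q := by
    simp only [FF, G3.add_q, G3.add_r, G3.sub_p, G3.sub_q, G3.sub_r, G3.mul_p, G3.mul_q,
      G3.mul_r]
    ring
  rw [GG]
  generalize FF a v a v = Y1 at *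
  generalize FF a v v b = Y2 at *
  generalize FF a v b a = Y3 at *
  simp only [BB, h]
  apply G3.ext
  · simp only [G3.add_p, G3.sub_p, G3.mul_p, G3.zero_p]
    linear_combination (w0.p - w1.q) * hpq - w2.q * hpr - w2.p * hqr
  · simp only [G3.add_q, G3.sub_q, G3.mul_q, G3.zero_q]
    linear_combination (w0.r - w1.p) * hpq + (w0.q - w2.p) * hpr + (w1.q - w2.r) * hqr
  · simp only [G3.add_r, G3.sub_r, G3.mul_r, G3.zero_r]
    linear_combination (-w1.p) * hpq - w2.p * hpr

/-- The identity: the cyclic sum in the free algebra, `a = x_2`, `v = x_1`, `b = x_0`. -/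
noncomputable def badG (K : Type u) [Field K] (N : ℕ) : FreeNonUnitalNonAssocAlgebra K ℕ :=
  GG (N + 1) (of K 2) (of K 1) (of K 0)

theorem bad_G3 (N : ℕ) (r : ℕ → G3 K) : lift K r (badG K N) = 0 := by
  rw [badG, map_GG, GG_G3]

theorem it_U (k : ℕ) (x : U K n) :
    it (substC K n 1) (k + 1) x = ⟨0, 0, 0, 0, X ^ (k + 1) * x.p⟩ := by
  induction k with
  | zero => apply U.ext <;> simp [it, substC]
  | succ k ih =>
    rw [it, ih]
    apply U.ext <;> simp [substC, pow_succ]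
    ring

theorem sub_p (x y : U K n) : (x - y).p = x.p - y.p := rfl

theorem sub_e (x y : U K n) : (x - y).e = x.e - y.e := rfl

theorem bad_UG (N : ℕ) : lift K (substC K (N + 3)) (badG K N) ≠ 0 := by
  rw [badG, map_GG]
  simp only [lift_of_apply]
  intro h
  have := congrArg U.z h
  simp only [GG, BB, it_U, U.add_z, U.sub_z, U.mul_z] at this
  simp [substC, FF, sub_p, sub_e, ← mul_assoc, ← pow_succ] at this

end Pool.Agent.Lib.MP_c03fb1_al.CS
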